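import Mathlib

namespace Pool.Agent.V11113.TH

open MeasureTheory Set
open scoped ENNReal

/-- The dyadic interval `[k 2^j, (k+1) 2^j)`. -/
def dyadic (j k : ℤ) : Set ℝ := Ico ((k : ℝ) * 2 ^ j) (((k : ℝ) + 1) * 2 ^ j)

lemma two_zpow_pos (j : ℤ) : (0 : ℝ) < 2 ^ j := zpow_pos (by norm_num) j

lemma mem_dyadic_iff {j k : ℤ} {x : ℝ} : x ∈ dyadic j k ↔ ⌊x / 2 ^ j⌋ = k := by
  have h := two_zpow_pos j
  rw [dyadic, mem_Ico, Int.floor_eq_iff, le_div_iff₀ h, div_lt_iff₀ h]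

lemma measurableSet_dyadic (j k : ℤ) : MeasurableSet (dyadic j k) := measurableSet_Ico

lemma volume_dyadic (j k : ℤ) : volume (dyadic j k) = ENNReal.ofReal (2 ^ j) := by
  rw [dyadic, Real.volume_Ico]; congr 1; ring

lemma volume_dyadic_ne_top (j k : ℤ) : volume (dyadic j k) ≠ ∞ := by
  rw [volume_dyadic]; exact ENNReal.ofReal_ne_top

lemma dyadic_split (j k : ℤ) : dyadic j k = dyadic (j-1) (2*k) ∪ dyadic (j-1) (2*k+1) := by
  have h := two_zpow_pos (j-1)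
  have h2 : (2:ℝ)^j = 2 * 2^(j-1) := by
    rw [← zpow_one_add₀ (by norm_num : (2:ℝ) ≠ 0)]; congr 1; ring
  unfold dyadic
  have e1 : ((2*k : ℤ) : ℝ) * 2^(j-1) = (k:ℝ) * 2^j := by push_cast; rw [h2]; ring
  have e2 : (((2*k+1 : ℤ) : ℝ) + 1) * 2^(j-1) = ((k:ℝ)+1) * 2^j := by push_cast; rw [h2]; ring
  have e3 : (((2*k : ℤ) : ℝ) + 1) * 2^(j-1) = ((2*k+1 : ℤ) : ℝ) * 2^(j-1) := by push_cast; ring
  rw [e3, Ico_union_Ico_eq_Ico, e1, e2]
  · push_cast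
    nlinarith
  · push_cast
    nlinarith

lemma dyadic_disjoint (j : ℤ) {k l : ℤ} (h : k ≠ l) : Disjoint (dyadic j k) (dyadic j l) := by
  rw [Set.disjoint_left]
  intro x hx hy
  rw [mem_dyadic_iff] at hx hy
  exact h (hx.symm.trans hy)

/-- nesting -/
lemma mem_dyadic_of_mem {j j' k m : ℤ} {x : ℝ} (hjj : j ≤ j') (hx : x ∈ dyadic j k) :
    x ∈ dyadic j' m ↔ k / ((2 ^ (j' - j).toNat : ℕ) : ℤ) = m := by
  rw [mem_dyadic_iff] at hx ⊢
  have h2 : (2:ℝ)^j' = 2^j * ((2 ^ (j' - j).toNat : ℕ) : ℝ) := by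
    push_cast
    rw [← zpow_natCast, ← zpow_add₀ (by norm_num : (2:ℝ) ≠ 0)]
    congr 1
    omega
  rw [h2, ← div_div, Int.floor_div_natCast, hx]

/-- The Haar function `h_I = |I|^{-1/2} (1_{I_+} - 1_{I_-})` of `I = dyadic j k`. -/
noncomputable def haar (j k : ℤ) (x : ℝ) : ℝ :=
  ((2 : ℝ) ^ j) ^ (-(1/2) : ℝ) *
    ((dyadic (j-1) (2*k+1)).indicator 1 x - (dyadic (j-1) (2*k)).indicator 1 x)

lemma haar_eq_zero {j k : ℤ} {x : ℝ} (h : x ∉ dyadic j k) : haar j k x = 0 := by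
  rw [dyadic_split] at h
  simp only [mem_union, not_or] at h
  simp [haar, h.1, h.2]

lemma measurable_haar (j k : ℤ) : Measurable (haar j k) := by
  unfold haar
  refine Measurable.const_mul (Measurable.sub ?_ ?_) _
  · exact measurable_one.indicator (measurableSet_dyadic _ _)
  · exact measurable_one.indicator (measurableSet_dyadic _ _)

lemma integrable_ind (j k : ℤ) : Integrable ((dyadic j k).indicator (1 : ℝ → ℝ)) := by
  rw [integrable_indicator_iff (measurableSet_dyadic _ _)]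
  exact integrableOn_const (volume_dyadic_ne_top j k)

lemma integral_ind (j k : ℤ) : ∫ x, (dyadic j k).indicator (1 : ℝ → ℝ) x = 2 ^ j := by
  rw [integral_indicator_one (measurableSet_dyadic _ _), measureReal_def, volume_dyadic,
    ENNReal.toReal_ofReal (two_zpow_pos j).le]

lemma integral_haar (j k : ℤ) : ∫ x, haar j k x = 0 := by
  unfold haar
  rw [integral_const_mul, integral_sub (integrable_ind _ _) (integrable_ind _ _), integral_ind,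
    integral_ind]
  ring

lemma haar_sq (j k : ℤ) (x : ℝ) :
    haar j k x * haar j k x = ((2:ℝ)^j)⁻¹ * (dyadic j k).indicator (1 : ℝ → ℝ) x := by
  have hd := dyadic_disjoint (j-1) (k := 2*k) (l := 2*k+1) (by omega)
  have hc : ((2 : ℝ) ^ j) ^ (-(1/2) : ℝ) * ((2 : ℝ) ^ j) ^ (-(1/2) : ℝ) = ((2:ℝ)^j)⁻¹ := by
    rw [← Real.rpow_add (two_zpow_pos j), ← Real.rpow_neg_one]
    norm_num
  rw [← hc]
  unfold haar
  by_cases h1 : x ∈ dyadic (j-1) (2*k)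
  · have h2 : x ∉ dyadic (j-1) (2*k+1) := Set.disjoint_left.mp hd h1
    have h3 : x ∈ dyadic j k := by rw [dyadic_split]; exact Or.inl h1
    simp only [indicator_of_mem h1, indicator_of_notMem h2, indicator_of_mem h3, Pi.one_apply]
    ring
  · by_cases h2 : x ∈ dyadic (j-1) (2*k+1)
    · have h3 : x ∈ dyadic j k := by rw [dyadic_split]; exact Or.inr h2
      simp only [indicator_of_notMem h1, indicator_of_mem h2, indicator_of_mem h3, Pi.one_apply]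
      ring
    · have h3 : x ∉ dyadic j k := by rw [dyadic_split]; simp [h1, h2]
      simp only [indicator_of_notMem h1, indicator_of_notMem h2, indicator_of_notMem h3]
      ring

lemma integral_haar_mul_lt {j j' : ℤ} (k k' : ℤ) (hjj : j < j') :
    ∫ x, haar j k x * haar j' k' x = 0 := by
  classical
  set c : ℝ := ((2 : ℝ) ^ j') ^ (-(1/2) : ℝ) *
    ((if k / ((2 ^ (j' - 1 - j).toNat : ℕ) : ℤ) = 2*k'+1 then 1 else 0) -
     (if k / ((2 ^ (j' - 1 - j).toNat : ℕ) : ℤ) = 2*k' then 1 else 0)) with hc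
  have h : ∀ x, haar j k x * haar j' k' x = haar j k x * c := by
    intro x
    by_cases hx : x ∈ dyadic j k
    · congr 1
      rw [haar, hc]
      congr 1
      rw [Set.indicator_apply, Set.indicator_apply]
      simp only [mem_dyadic_of_mem (show j ≤ j'-1 by omega) hx, Pi.one_apply]
    · rw [haar_eq_zero hx]; ring
  simp_rw [h]
  rw [integral_mul_const, integral_haar, zero_mul]

lemma integral_haar_mul (j k j' k' : ℤ) :
    ∫ x, haar j k x * haar j' k' x = if (j, k) = (j', k') then 1 else 0 := by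
  rcases lt_trichotomy j j' with h | h | h
  · rw [integral_haar_mul_lt k k' h, if_neg]
    intro h'; simp at h'; omega
  · subst h
    by_cases hk : k = k'
    · subst hk
      simp_rw [haar_sq]
      rw [integral_const_mul, integral_ind, inv_mul_cancel₀ (two_zpow_pos j).ne']
      simp
    · rw [if_neg (by simpa using hk)]
      rw [← integral_zero ℝ ℝ]
      congr 1
      ext x
      by_cases hx : x ∈ dyadic j k
      · have : x ∉ dyadic j k' := Set.disjoint_left.mp (dyadic_disjoint j hk) hx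
        rw [haar_eq_zero this, mul_zero]
      · rw [haar_eq_zero hx, zero_mul]
  · have : ∫ x, haar j k x * haar j' k' x = ∫ x, haar j' k' x * haar j k x := by
      congr 1; ext x; ring
    rw [this, integral_haar_mul_lt k' k h, if_neg]
    intro h'; simp at h'; omega

variable (𝕜 : Type*) [RCLike 𝕜]

/-- `L²(ℝ²)` with scalars `𝕜` -/
abbrev L2 : Type _ := Lp 𝕜 2 (volume : Measure (ℝ × ℝ))

/-- bounded linear operators on `L²(ℝ²)` -/
abbrev Op : Type _ := L2 𝕜 →L[𝕜] L2 𝕜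

/-- the function `h_{J₁} ⊗ h_{J₂}` on the plane; intervals are given by their labels `(j, k)` -/
noncomputable def haar2 (J₁ J₂ : ℤ × ℤ) (p : ℝ × ℝ) : 𝕜 :=
  ((haar J₁.1 J₁.2 p.1 * haar J₂.1 J₂.2 p.2 : ℝ) : 𝕜)

lemma measurableSet_rect (j k j' k' : ℤ) : MeasurableSet (dyadic j k ×ˢ dyadic j' k') :=
  (measurableSet_dyadic _ _).prod (measurableSet_dyadic _ _)

lemma volume_rect (j k j' k' : ℤ) :
    (volume : Measure (ℝ × ℝ)) (dyadic j k ×ˢ dyadic j' k')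
      = ENNReal.ofReal (2^j) * ENNReal.ofReal (2^j') := by
  rw [Measure.volume_eq_prod, Measure.prod_prod, volume_dyadic, volume_dyadic]

lemma volume_rect_ne_top (j k j' k' : ℤ) :
    (volume : Measure (ℝ × ℝ)) (dyadic j k ×ˢ dyadic j' k') ≠ ∞ := by
  rw [volume_rect]
  exact ENNReal.mul_ne_top ENNReal.ofReal_ne_top ENNReal.ofReal_ne_top

/-- indicator function of a dyadic rectangle -/
noncomputable def rectFun (j k j' k' : ℤ) : ℝ × ℝ → 𝕜 :=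
  (dyadic j k ×ˢ dyadic j' k').indicator (fun _ => (1:𝕜))

lemma rectFun_apply (j k j' k' : ℤ) (p : ℝ × ℝ) :
    rectFun 𝕜 j k j' k' p = (((dyadic j k).indicator (1 : ℝ → ℝ) p.1 *
      (dyadic j' k').indicator (1 : ℝ → ℝ) p.2 : ℝ) : 𝕜) := by
  classical
  unfold rectFun
  simp only [Set.indicator_apply, Set.mem_prod, Pi.one_apply]
  by_cases h1 : p.1 ∈ dyadic j k <;> by_cases h2 : p.2 ∈ dyadic j' k' <;> simp [h1, h2]

lemma memLp_rectFun (j k j' k' : ℤ) : MemLp (rectFun 𝕜 j k j' k') 2 (volume : Measure (ℝ × ℝ)) :=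
  memLp_indicator_const 2 (measurableSet_rect _ _ _ _) 1 (Or.inr (volume_rect_ne_top _ _ _ _))

lemma haar2_eq (J₁ J₂ : ℤ × ℤ) : haar2 𝕜 J₁ J₂ =
    (((((2 : ℝ) ^ J₁.1) ^ (-(1/2) : ℝ) * ((2 : ℝ) ^ J₂.1) ^ (-(1/2) : ℝ) : ℝ)) : 𝕜) •
    (rectFun 𝕜 (J₁.1-1) (2*J₁.2+1) (J₂.1-1) (2*J₂.2+1)
      - rectFun 𝕜 (J₁.1-1) (2*J₁.2+1) (J₂.1-1) (2*J₂.2)
      - rectFun 𝕜 (J₁.1-1) (2*J₁.2) (J₂.1-1) (2*J₂.2+1)
      + rectFun 𝕜 (J₁.1-1) (2*J₁.2) (J₂.1-1) (2*J₂.2)) := by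
  ext p
  simp only [haar2, haar, Pi.smul_apply, Pi.add_apply, Pi.sub_apply, rectFun_apply, smul_eq_mul]
  push_cast
  ring

lemma memLp_haar2 (J₁ J₂ : ℤ × ℤ) : MemLp (haar2 𝕜 J₁ J₂) 2 (volume : Measure (ℝ × ℝ)) := by
  rw [haar2_eq]
  exact ((((memLp_rectFun 𝕜 _ _ _ _).sub (memLp_rectFun 𝕜 _ _ _ _)).sub
    (memLp_rectFun 𝕜 _ _ _ _)).add (memLp_rectFun 𝕜 _ _ _ _)).const_smul _

/-- `h_{J₁} ⊗ h_{J₂}` as an element of `L²(ℝ²)` -/
noncomputable def H (J₁ J₂ : ℤ × ℤ) : L2 𝕜 :=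
  (memLp_haar2 𝕜 J₁ J₂).toLp (haar2 𝕜 J₁ J₂)

/-- indicator of a dyadic rectangle in `L²(ℝ²)` -/
noncomputable def E (j k j' k' : ℤ) : Lp 𝕜 2 (volume : Measure (ℝ × ℝ)) :=
  indicatorConstLp 2 (measurableSet_rect j k j' k') (volume_rect_ne_top j k j' k') (1:𝕜)

lemma E_eq (j k j' k' : ℤ) : E 𝕜 j k j' k' = (memLp_rectFun 𝕜 j k j' k').toLp _ := rfl

lemma H_eq (J₁ J₂ : ℤ × ℤ) : H 𝕜 J₁ J₂ =
    (((((2 : ℝ) ^ J₁.1) ^ (-(1/2) : ℝ) * ((2 : ℝ) ^ J₂.1) ^ (-(1/2) : ℝ) : ℝ)) : 𝕜) •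
    (E 𝕜 (J₁.1-1) (2*J₁.2+1) (J₂.1-1) (2*J₂.2+1)
      - E 𝕜 (J₁.1-1) (2*J₁.2+1) (J₂.1-1) (2*J₂.2)
      - E 𝕜 (J₁.1-1) (2*J₁.2) (J₂.1-1) (2*J₂.2+1)
      + E 𝕜 (J₁.1-1) (2*J₁.2) (J₂.1-1) (2*J₂.2)) := by
  simp only [E_eq, ← MemLp.toLp_sub, ← MemLp.toLp_add, ← MemLp.toLp_const_smul]
  unfold H
  congr 1
  exact haar2_eq 𝕜 J₁ J₂

lemma E_split_left (j k j' k' : ℤ) :
    E 𝕜 j k j' k' = E 𝕜 (j-1) (2*k) j' k' + E 𝕜 (j-1) (2*k+1) j' k' := by
  simp only [E_eq, ← MemLp.toLp_add]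
  congr 1
  ext p
  simp only [Pi.add_apply, rectFun]
  have hd := dyadic_disjoint (j-1) (k := 2*k) (l := 2*k+1) (by omega)
  have hd2 : Disjoint (dyadic (j-1) (2*k) ×ˢ dyadic j' k') (dyadic (j-1) (2*k+1) ×ˢ dyadic j' k') := by
    rw [Set.disjoint_prod]; exact Or.inl hd
  rw [dyadic_split j k, Set.union_prod, Set.indicator_union_of_disjoint hd2]

lemma E_split_right (j k j' k' : ℤ) :
    E 𝕜 j k j' k' = E 𝕜 j k (j'-1) (2*k') + E 𝕜 j k (j'-1) (2*k'+1) := by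
  simp only [E_eq, ← MemLp.toLp_add]
  congr 1
  ext p
  simp only [Pi.add_apply, rectFun]
  have hd := dyadic_disjoint (j'-1) (k := 2*k') (l := 2*k'+1) (by omega)
  have hd2 : Disjoint (dyadic j k ×ˢ dyadic (j'-1) (2*k')) (dyadic j k ×ˢ dyadic (j'-1) (2*k'+1)) := by
    rw [Set.disjoint_prod]; exact Or.inr hd
  rw [dyadic_split j' k', Set.prod_union, Set.indicator_union_of_disjoint hd2]

lemma inner_H (J₁ J₂ K₁ K₂ : ℤ × ℤ) :
    inner 𝕜 (H 𝕜 J₁ J₂) (H 𝕜 K₁ K₂) = if (J₁, J₂) = (K₁, K₂) then (1:𝕜) else 0 := by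
  rw [L2.inner_def]
  have h1 : ∀ᵐ p ∂(volume : Measure (ℝ × ℝ)),
      inner 𝕜 ((H 𝕜 J₁ J₂ : Lp 𝕜 2 (volume : Measure (ℝ × ℝ))) p)
        ((H 𝕜 K₁ K₂ : Lp 𝕜 2 (volume : Measure (ℝ × ℝ))) p)
      = (((haar J₁.1 J₁.2 p.1 * haar K₁.1 K₁.2 p.1) * (haar J₂.1 J₂.2 p.2 * haar K₂.1 K₂.2 p.2) : ℝ) : 𝕜) := by
    filter_upwards [MemLp.coeFn_toLp (memLp_haar2 𝕜 J₁ J₂), MemLp.coeFn_toLp (memLp_haar2 𝕜 K₁ K₂)]
      with p hp1 hp2
    unfold H
    rw [hp1, hp2]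
    simp only [haar2, RCLike.inner_apply, RCLike.conj_ofReal]
    push_cast
    ring
  rw [integral_congr_ae h1, integral_ofReal, Measure.volume_eq_prod,
    integral_prod_mul (fun x => haar J₁.1 J₁.2 x * haar K₁.1 K₁.2 x)
      (fun y => haar J₂.1 J₂.2 y * haar K₂.1 K₂.2 y), integral_haar_mul, integral_haar_mul]
  have e1 : (J₁.1, J₁.2) = J₁ := rfl
  have e2 : (J₂.1, J₂.2) = J₂ := rfl
  have e3 : (K₁.1, K₁.2) = K₁ := rfl
  have e4 : (K₂.1, K₂.2) = K₂ := rfl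
  rw [e1, e2, e3, e4]
  by_cases h : J₁ = K₁
  · by_cases h' : J₂ = K₂
    · subst h; subst h'; simp
    · have : (J₁, J₂) ≠ (K₁, K₂) := fun h2 => h' (Prod.ext_iff.mp h2).2
      rw [if_neg h', if_neg this]; simp
  · have : (J₁, J₂) ≠ (K₁, K₂) := fun h2 => h (Prod.ext_iff.mp h2).1
    rw [if_neg h, if_neg this]; simp

/-- the label of the other half of the parent -/
def sib (J : ℤ × ℤ) : ℤ × ℤ := (J.1, if J.2 % 2 = 1 then J.2 - 1 else J.2 + 1)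

/-- `T h_{I_+} = h_{I_-}`, `T h_{I_-} = - h_{I_+}` -/
def sgn (J : ℤ × ℤ) : ℤ := if J.2 % 2 = 1 then 1 else -1

lemma sib_sib (J : ℤ × ℤ) : sib (sib J) = J := by
  obtain ⟨j, k⟩ := J
  simp only [sib]
  by_cases h : k % 2 = 1
  · rw [if_pos h, if_neg (by omega)]; simp
  · rw [if_neg h, if_pos (by omega)]; simp

lemma sgn_mul_self (J : ℤ × ℤ) : sgn J * sgn J = 1 := by
  unfold sgn; split_ifs <;> norm_num

/-- `T ⊗ T` on the product Haar basis -/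
def IsTensorShift (T : Op 𝕜) : Prop :=
  ∀ J₁ J₂ : ℤ × ℤ, T (H 𝕜 J₁ J₂) = ((sgn J₁ * sgn J₂ : ℤ) : 𝕜) • H 𝕜 (sib J₁) (sib J₂)

variable {𝕜} in
/-- `∫_U |T 1_U|²` -/
noncomputable def energy (T : Op 𝕜) (U : Set (ℝ × ℝ)) (hU : MeasurableSet U)
    (hfin : volume U ≠ ∞) : ℝ :=
  ∫ p in U, ‖(T (indicatorConstLp 2 hU hfin (1:𝕜)) : L2 𝕜) p‖ ^ 2

lemma orthonormal_H : Orthonormal 𝕜 (fun J : (ℤ × ℤ) × (ℤ × ℤ) => H 𝕜 J.1 J.2) := by
  classical
  rw [orthonormal_iff_ite]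
  intro J K
  rw [inner_H]

lemma sgn_cast_cases (J : ℤ × ℤ) (K : ℤ × ℤ) :
    ((sgn J * sgn K : ℤ) : 𝕜) * ((sgn J * sgn K : ℤ) : 𝕜) = 1 := by
  rw [← Int.cast_mul]
  have : sgn J * sgn K * (sgn J * sgn K) = (sgn J * sgn J) * (sgn K * sgn K) := by ring
  rw [this, sgn_mul_self, sgn_mul_self]; simp

lemma orthonormal_H' : Orthonormal 𝕜 (fun J : (ℤ × ℤ) × (ℤ × ℤ) =>
    ((sgn J.1 * sgn J.2 : ℤ) : 𝕜) • H 𝕜 (sib J.1) (sib J.2)) := by
  classical
  rw [orthonormal_iff_ite]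
  intro J K
  rw [inner_smul_left, inner_smul_right, inner_H]
  by_cases h : J = K
  · subst h
    rw [if_pos rfl, if_pos rfl, mul_one, map_intCast, sgn_cast_cases]
  · rw [if_neg h, if_neg]
    · simp
    · intro h'
      apply h
      have h1 : sib J.1 = sib K.1 := congrArg Prod.fst h'
      have h2 : sib J.2 = sib K.2 := congrArg Prod.snd h'
      have h3 : J.1 = K.1 := by rw [← sib_sib J.1, h1, sib_sib]
      have h4 : J.2 = K.2 := by rw [← sib_sib J.2, h2, sib_sib]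
      exact Prod.ext h3 h4

lemma exists_shift_of_orthonormal {ι E : Type*} [NormedAddCommGroup E] [InnerProductSpace 𝕜 E]
    [CompleteSpace E] {v w : ι → E} (hv : Orthonormal 𝕜 v) (hw : Orthonormal 𝕜 w) :
    ∃ T : E →L[𝕜] E, ∀ i, T (v i) = w i := by
  classical
  let V := hv.orthogonalFamily.linearIsometry
  let W := hw.orthogonalFamily.linearIsometry
  refine ⟨W.toContinuousLinearMap ∘L ContinuousLinearMap.adjoint V.toContinuousLinearMap, ?_⟩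
  intro i
  have hVi : V (lp.single 2 i (1:𝕜)) = v i := by
    rw [OrthogonalFamily.linearIsometry_apply_single]
    simp
  have hWi : W (lp.single 2 i (1:𝕜)) = w i := by
    rw [OrthogonalFamily.linearIsometry_apply_single]
    simp
  have h1 : ContinuousLinearMap.adjoint V.toContinuousLinearMap (v i) = lp.single 2 i (1:𝕜) := by
    refine ext_inner_left 𝕜 fun y => ?_
    rw [ContinuousLinearMap.adjoint_inner_right, ← hVi]
    exact V.inner_map_map _ _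
  rw [ContinuousLinearMap.comp_apply, h1]
  exact hWi

theorem exists_tensorShift : ∃ T, IsTensorShift 𝕜 T := by
  obtain ⟨T, hT⟩ := exists_shift_of_orthonormal 𝕜 (orthonormal_H 𝕜) (orthonormal_H' 𝕜)
  exact ⟨T, fun J₁ J₂ => hT (J₁, J₂)⟩

end Pool.Agent.V11113.TH
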