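import Pool.Agent.V11113.TH.Basic

namespace Pool.Agent.V11113.TH

open MeasureTheory Set
open scoped ENNReal

variable (𝕜 : Type*) [RCLike 𝕜]

variable {𝕜} in
lemma T_pp {T : Lp 𝕜 2 (volume : Measure (ℝ × ℝ)) →L[𝕜] Lp 𝕜 2 (volume : Measure (ℝ × ℝ))}
    (hT : IsTensorShift 𝕜 T) (j a b : ℤ) :
    T (H 𝕜 (j, 2*a+1) (j, 2*b+1)) = H 𝕜 (j, 2*a) (j, 2*b) := by
  rw [hT]
  simp only [sgn, sib]
  rw [if_pos (by omega), if_pos (by omega)]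
  simp

variable {𝕜} in
lemma T_mm {T : Lp 𝕜 2 (volume : Measure (ℝ × ℝ)) →L[𝕜] Lp 𝕜 2 (volume : Measure (ℝ × ℝ))}
    (hT : IsTensorShift 𝕜 T) (j a b : ℤ) :
    T (H 𝕜 (j, 2*a) (j, 2*b)) = H 𝕜 (j, 2*a+1) (j, 2*b+1) := by
  rw [hT]
  simp only [sgn, sib]
  rw [if_neg (by omega), if_neg (by omega)]
  simp

variable {𝕜} in
lemma T_pm {T : Lp 𝕜 2 (volume : Measure (ℝ × ℝ)) →L[𝕜] Lp 𝕜 2 (volume : Measure (ℝ × ℝ))}
    (hT : IsTensorShift 𝕜 T) (j a b : ℤ) :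
    T (H 𝕜 (j, 2*a+1) (j, 2*b)) = - H 𝕜 (j, 2*a) (j, 2*b+1) := by
  rw [hT]
  simp only [sgn, sib]
  rw [if_pos (by omega), if_neg (by omega)]
  simp

variable {𝕜} in
lemma T_mp {T : Lp 𝕜 2 (volume : Measure (ℝ × ℝ)) →L[𝕜] Lp 𝕜 2 (volume : Measure (ℝ × ℝ))}
    (hT : IsTensorShift 𝕜 T) (j a b : ℤ) :
    T (H 𝕜 (j, 2*a) (j, 2*b+1)) = - H 𝕜 (j, 2*a+1) (j, 2*b) := by
  rw [hT]
  simp only [sgn, sib]
  rw [if_neg (by omega), if_pos (by omega)]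
  simp

/-- the pattern -/
def P : Finset (ℤ × ℤ) := {(3,3),(2,2),(1,1),(0,0),(3,1),(2,0),(1,2),(0,3)}

lemma sum_P {M : Type*} [AddCommMonoid M] (f : ℤ × ℤ → M) :
    ∑ t ∈ P, f t = f (3,3) + (f (2,2) + (f (1,1) + (f (0,0) + (f (3,1) + (f (2,0) +
      (f (1,2) + f (0,3))))))) := by
  unfold P
  rw [Finset.sum_insert (by decide), Finset.sum_insert (by decide), Finset.sum_insert (by decide),
    Finset.sum_insert (by decide), Finset.sum_insert (by decide), Finset.sum_insert (by decide),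
    Finset.sum_insert (by decide), Finset.sum_singleton]

/-- the local pattern function -/
noncomputable def D (j a b : ℤ) : Lp 𝕜 2 (volume : Measure (ℝ × ℝ)) :=
  ∑ t ∈ P, E 𝕜 (j-1-1) (4*a+t.1) (j-1-1) (4*b+t.2) - (1/2 : 𝕜) • E 𝕜 j a j b

lemma D_eq (j a b : ℤ) :
    (((((2 : ℝ) ^ (j-1)) ^ (-(1/2) : ℝ) * ((2 : ℝ) ^ (j-1)) ^ (-(1/2) : ℝ) : ℝ)) : 𝕜) • D 𝕜 j a b
    = (1/2 : 𝕜) • (H 𝕜 (j-1, 2*a+1) (j-1, 2*b+1) + H 𝕜 (j-1, 2*a) (j-1, 2*b)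
      + H 𝕜 (j-1, 2*a+1) (j-1, 2*b) - H 𝕜 (j-1, 2*a) (j-1, 2*b+1)) := by
  rw [H_eq, H_eq, H_eq, H_eq, D, sum_P, E_split_left 𝕜 j a, E_split_left 𝕜 (j-1) (2*a),
    E_split_left 𝕜 (j-1) (2*a+1)]
  rw [E_split_right 𝕜 _ _ j b, E_split_right 𝕜 _ _ j b, E_split_right 𝕜 _ _ j b,
    E_split_right 𝕜 _ _ j b]
  simp only [E_split_right 𝕜 _ _ (j-1) (2*b), E_split_right 𝕜 _ _ (j-1) (2*b+1)]
  have a0 : 2*(2*a) = 4*a := by ring
  have a1 : 2*(2*a)+1 = 4*a+1 := by ring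
  have a2 : 2*(2*a+1) = 4*a+2 := by ring
  have a3 : 2*(2*a+1)+1 = 4*a+3 := by ring
  have b0 : 2*(2*b) = 4*b := by ring
  have b1 : 2*(2*b)+1 = 4*b+1 := by ring
  have b2 : 2*(2*b+1) = 4*b+2 := by ring
  have b3 : 2*(2*b+1)+1 = 4*b+3 := by ring
  simp only [a1, a3, b1, b3]
  simp only [a0, a2, b0, b2, add_zero]
  module

variable {𝕜} in
lemma T_D {T : Lp 𝕜 2 (volume : Measure (ℝ × ℝ)) →L[𝕜] Lp 𝕜 2 (volume : Measure (ℝ × ℝ))}
    (hT : IsTensorShift 𝕜 T) (j a b : ℤ) : T (D 𝕜 j a b) = D 𝕜 j a b := by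
  have hc : (((((2 : ℝ) ^ (j-1)) ^ (-(1/2) : ℝ) * ((2 : ℝ) ^ (j-1)) ^ (-(1/2) : ℝ) : ℝ)) : 𝕜) ≠ 0 := by
    have h : (0:ℝ) < ((2 : ℝ) ^ (j-1)) ^ (-(1/2) : ℝ) := Real.rpow_pos_of_pos (two_zpow_pos _) _
    have h2 := mul_pos h h
    exact_mod_cast h2.ne'
  have h := D_eq 𝕜 j a b
  have h2 : T ((((((2 : ℝ) ^ (j-1)) ^ (-(1/2) : ℝ) * ((2 : ℝ) ^ (j-1)) ^ (-(1/2) : ℝ) : ℝ)) : 𝕜)
      • D 𝕜 j a b) = (((((2 : ℝ) ^ (j-1)) ^ (-(1/2) : ℝ) * ((2 : ℝ) ^ (j-1)) ^ (-(1/2) : ℝ) : ℝ)) : 𝕜)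
      • D 𝕜 j a b := by
    rw [h, map_smul, map_sub, map_add, map_add, T_pp hT, T_mm hT, T_pm hT, T_mp hT]
    module
  rw [map_smul] at h2
  exact smul_right_injective _ hc h2

/-- the labels of the squares of generation `n` -/
def S : ℕ → Finset (ℤ × ℤ)
  | 0 => {(0,0)}
  | n+1 => (S n ×ˢ P).image (fun q => (4*q.1.1+q.2.1, 4*q.1.2+q.2.2))

lemma P_bound {t : ℤ × ℤ} (ht : t ∈ P) : 0 ≤ t.1 ∧ t.1 < 4 ∧ 0 ≤ t.2 ∧ t.2 < 4 := by
  simp only [P, Finset.mem_insert, Finset.mem_singleton] at ht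
  rcases ht with h | h | h | h | h | h | h | h <;> subst h <;> norm_num

lemma inj_child (n : ℕ) : Set.InjOn (fun q : (ℤ × ℤ) × (ℤ × ℤ) => (4*q.1.1+q.2.1, 4*q.1.2+q.2.2))
    (S n ×ˢ P : Finset _) := by
  intro q hq q' hq' h
  have h1 := P_bound (Finset.mem_product.mp hq).2
  have h2 := P_bound (Finset.mem_product.mp hq').2
  obtain ⟨⟨q1, q2⟩, ⟨q3, q4⟩⟩ := q
  obtain ⟨⟨r1, r2⟩, ⟨r3, r4⟩⟩ := q'
  simp only [Prod.mk.injEq] at h h1 h2 ⊢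
  obtain ⟨h3, h4⟩ := h
  omega

lemma card_S (n : ℕ) : (S n).card = 8 ^ n := by
  induction n with
  | zero => rfl
  | succ n ih =>
    rw [S, Finset.card_image_of_injOn (inj_child n), Finset.card_product, ih, pow_succ]
    rfl

/-- level of generation `n` -/
def lev (n : ℕ) : ℤ := -(2 * (n:ℤ))

lemma lev_succ (n : ℕ) : lev (n+1) = lev n - 1 - 1 := by unfold lev; push_cast; ring

noncomputable def F (n : ℕ) : Lp 𝕜 2 (volume : Measure (ℝ × ℝ)) :=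
  ∑ s ∈ S n, E 𝕜 (lev n) s.1 (lev n) s.2

lemma F_succ (n : ℕ) : F 𝕜 (n+1) - (1/2 : 𝕜) • F 𝕜 n = ∑ s ∈ S n, D 𝕜 (lev n) s.1 s.2 := by
  unfold F D
  rw [S, Finset.sum_image (inj_child n), Finset.sum_product, Finset.sum_sub_distrib,
    Finset.smul_sum, lev_succ]

variable {𝕜} in
lemma T_F {T : Lp 𝕜 2 (volume : Measure (ℝ × ℝ)) →L[𝕜] Lp 𝕜 2 (volume : Measure (ℝ × ℝ))}
    (hT : IsTensorShift 𝕜 T) (n : ℕ) :
    T (F 𝕜 n) = F 𝕜 n + ((1/2 : 𝕜)^n) • (T (F 𝕜 0) - F 𝕜 0) := by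
  induction n with
  | zero => simp
  | succ n ih =>
    have h : T (F 𝕜 (n+1) - (1/2 : 𝕜) • F 𝕜 n) = F 𝕜 (n+1) - (1/2 : 𝕜) • F 𝕜 n := by
      rw [F_succ, map_sum]
      exact Finset.sum_congr rfl fun s _ => T_D hT _ _ _
    rw [map_sub, map_smul, ih] at h
    have h2 : T (F 𝕜 (n+1)) = (F 𝕜 (n+1) - (1/2 : 𝕜) • F 𝕜 n) + (1/2 : 𝕜) • (F 𝕜 n + ((1/2 : 𝕜)^n) • (T (F 𝕜 0) - F 𝕜 0)) := by
      rw [← h]; abel
    rw [h2, pow_succ]
    module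

/-- the set `U_n` -/
def U (n : ℕ) : Set (ℝ × ℝ) := ⋃ s ∈ S n, dyadic (lev n) s.1 ×ˢ dyadic (lev n) s.2

lemma measurableSet_U (n : ℕ) : MeasurableSet (U n) :=
  Finset.measurableSet_biUnion _ fun _ _ => measurableSet_rect _ _ _ _

lemma disj_rect (j : ℤ) {s t : ℤ × ℤ} (h : s ≠ t) :
    Disjoint (dyadic j s.1 ×ˢ dyadic j s.2) (dyadic j t.1 ×ˢ dyadic j t.2) := by
  rw [Set.disjoint_prod]
  by_cases h1 : s.1 = t.1
  · right
    apply dyadic_disjoint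
    intro h2
    exact h (Prod.ext h1 h2)
  · left
    exact dyadic_disjoint _ h1

lemma volume_U (n : ℕ) : volume (U n) = ENNReal.ofReal ((1/2)^n) := by
  unfold U
  rw [measure_biUnion_finset]
  · simp_rw [volume_rect]
    rw [Finset.sum_const, card_S, ← ENNReal.ofReal_mul (two_zpow_pos _).le, nsmul_eq_mul]
    rw [← ENNReal.ofReal_natCast, ← ENNReal.ofReal_mul (by positivity)]
    congr 1
    unfold lev
    rw [zpow_neg, zpow_mul, zpow_natCast]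
    push_cast
    have : ((2:ℝ)^(2:ℤ)) = 4 := by norm_num
    rw [this, ← mul_inv, ← mul_pow, ← inv_pow, ← mul_pow]
    norm_num
  · intro s _ t _ hst
    exact disj_rect _ hst
  · intro s _
    exact measurableSet_rect _ _ _ _

lemma volume_U_ne_top (n : ℕ) : volume (U n) ≠ ∞ := by
  rw [volume_U]; exact ENNReal.ofReal_ne_top

lemma sum_E (j : ℤ) (A : Finset (ℤ × ℤ)) :
    ∃ (hm : MeasurableSet (⋃ s ∈ A, dyadic j s.1 ×ˢ dyadic j s.2))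
      (hf : volume (⋃ s ∈ A, dyadic j s.1 ×ˢ dyadic j s.2) ≠ ∞),
    ∑ s ∈ A, E 𝕜 j s.1 j s.2 = indicatorConstLp 2 hm hf (1:𝕜) := by
  classical
  induction A using Finset.induction_on with
  | empty =>
    refine ⟨by simp, by simp, ?_⟩
    simp
  | insert a A ha ih =>
    obtain ⟨hm, hf, h⟩ := ih
    have hun : (⋃ s ∈ insert a A, dyadic j s.1 ×ˢ dyadic j s.2)
      = (dyadic j a.1 ×ˢ dyadic j a.2) ∪ ⋃ s ∈ A, dyadic j s.1 ×ˢ dyadic j s.2 := by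
      rw [Finset.set_biUnion_insert]
    have hm' : MeasurableSet (⋃ s ∈ insert a A, dyadic j s.1 ×ˢ dyadic j s.2) := by
      rw [hun]; exact (measurableSet_rect _ _ _ _).union hm
    have hf' : volume (⋃ s ∈ insert a A, dyadic j s.1 ×ˢ dyadic j s.2) ≠ ∞ := by
      rw [hun]; exact measure_union_ne_top (volume_rect_ne_top _ _ _ _) hf
    refine ⟨hm', hf', ?_⟩
    rw [Finset.sum_insert ha, h, E]
    have hd : Disjoint (dyadic j a.1 ×ˢ dyadic j a.2) (⋃ s ∈ A, dyadic j s.1 ×ˢ dyadic j s.2) := by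
      rw [Set.disjoint_iUnion₂_right]
      intro s hs
      exact disj_rect _ (fun h => ha (h ▸ hs))
    rw [← indicatorConstLp_disjoint_union (measurableSet_rect _ _ _ _) hm
      (volume_rect_ne_top _ _ _ _) hf hd]
    congr 1
    exact hun.symm

lemma F_eq (n : ℕ) : F 𝕜 n = indicatorConstLp 2 (measurableSet_U n) (volume_U_ne_top n) (1:𝕜) := by
  obtain ⟨hm, hf, h⟩ := sum_E 𝕜 (lev n) (S n)
  exact h

lemma norm_ineq {ε : ℝ} (hε : 0 < ε) (z : 𝕜) : 1 - ε - ‖z‖^2/ε ≤ ‖1 + z‖^2 := by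
  have h1 : 1 - ‖z‖ ≤ ‖1 + z‖ := by
    have := norm_sub_norm_le (1:𝕜) (-z)
    rwa [norm_one, norm_neg, sub_neg_eq_add] at this
  have h2 : 1 - 2*‖z‖ ≤ ‖1+z‖^2 := by
    rcases le_or_gt ‖z‖ 1 with h | h
    · have : (1 - ‖z‖)^2 ≤ ‖1+z‖^2 := pow_le_pow_left₀ (by linarith) h1 2
      nlinarith [norm_nonneg z]
    · nlinarith [sq_nonneg ‖1+z‖]
  have h3 : 2 * ‖z‖ ≤ ε + ‖z‖^2/ε := by
    have : 0 ≤ (ε - ‖z‖)^2/ε := by positivity
    have h4 : (ε - ‖z‖)^2/ε = ε - 2*‖z‖ + ‖z‖^2/ε := by field_simp; ring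
    linarith
  linarith

variable {𝕜} in
theorem main {T : Lp 𝕜 2 (volume : Measure (ℝ × ℝ)) →L[𝕜] Lp 𝕜 2 (volume : Measure (ℝ × ℝ))}
    (hT : IsTensorShift 𝕜 T) {η : ℝ} (hη : η < 1) :
    ∃ n : ℕ, η * (volume (U n)).toReal <
      ∫ p in U n, ‖(T (indicatorConstLp 2 (measurableSet_U n) (volume_U_ne_top n) (1:𝕜)) :
        Lp 𝕜 2 (volume : Measure (ℝ × ℝ))) p‖^2 := by
  set r : Lp 𝕜 2 (volume : Measure (ℝ × ℝ)) := T (F 𝕜 0) - F 𝕜 0 with hr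
  set R : ℝ := ∫ p, ‖r p‖^2 with hR
  have hR0 : 0 ≤ R := integral_nonneg fun p => by positivity
  have hint : Integrable (fun p => ‖r p‖^2) (volume : Measure (ℝ × ℝ)) := by
    have := (Lp.memLp r).integrable_norm_pow (p := 2) (by norm_num)
    simpa using this
  set ε : ℝ := (1-η)/4 with hε'
  have hε : 0 < ε := by rw [hε']; linarith
  obtain ⟨n, hn⟩ := exists_pow_lt_of_lt_one (show (0:ℝ) < ε^2/(R+1) by positivity)
    (show (1/2:ℝ) < 1 by norm_num)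
  refine ⟨n, ?_⟩
  rw [← F_eq, T_F hT n, F_eq 𝕜 n]
  have hvol : (volume (U n)).toReal = (1/2)^n := by
    rw [volume_U, ENNReal.toReal_ofReal (by positivity)]
  have hpos : (0:ℝ) < (1/2)^n := by positivity
  set g : Lp 𝕜 2 (volume : Measure (ℝ × ℝ)) :=
    indicatorConstLp 2 (measurableSet_U n) (volume_U_ne_top n) (1:𝕜) + ((1/2:𝕜)^n) • r with hg
  have hgint : Integrable (fun p => ‖g p‖^2) (volume : Measure (ℝ × ℝ)) := by
    have := (Lp.memLp g).integrable_norm_pow (p := 2) (by norm_num)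
    simpa using this
  -- pointwise bound on `U n`
  have hae : ∀ᵐ p ∂(volume : Measure (ℝ × ℝ)), p ∈ U n →
      1 - ε - (1/4)^n * ‖r p‖^2/ε ≤ ‖g p‖^2 := by
    have e1 := Lp.coeFn_add (indicatorConstLp 2 (measurableSet_U n) (volume_U_ne_top n) (1:𝕜))
      (((1/2:𝕜)^n) • r)
    have e2 := Lp.coeFn_smul ((1/2:𝕜)^n) r
    have e3 := indicatorConstLp_coeFn_mem (p := 2) (hs := measurableSet_U n)
      (hμs := volume_U_ne_top n) (c := (1:𝕜))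
    filter_upwards [e1, e2, e3] with p h1 h2 h3 hp
    rw [hg, h1, Pi.add_apply, h2, Pi.smul_apply, h3 hp]
    have := norm_ineq 𝕜 hε (((1/2:𝕜)^n) • r p)
    refine le_trans (le_of_eq ?_) this
    congr 2
    rw [norm_smul, norm_pow, mul_pow, ← pow_mul, mul_comm n 2, pow_mul]
    congr 2
    rw [norm_div, norm_one, RCLike.norm_ofNat]
    norm_num
  have hcalc : ∫ p in U n, (1 - ε - (1/4)^n * ‖r p‖^2/ε) ≤ ∫ p in U n, ‖g p‖^2 := by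
    refine setIntegral_mono_on_ae ?_ hgint.integrableOn (measurableSet_U n) hae
    refine Integrable.sub (integrableOn_const (volume_U_ne_top n)) ?_
    exact ((hint.integrableOn.const_mul _).div_const _)
  have hleft : (1-ε) * (1/2)^n - (1/4)^n * R/ε ≤ ∫ p in U n, (1 - ε - (1/4)^n * ‖r p‖^2/ε) := by
    have hi1 : Integrable (fun _ : ℝ × ℝ => 1 - ε) (volume.restrict (U n)) :=
      integrableOn_const (volume_U_ne_top n)
    have hi2 : Integrable (fun p : ℝ × ℝ => (1/4)^n * ‖r p‖^2/ε) (volume.restrict (U n)) :=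
      ((hint.integrableOn.const_mul _).div_const _)
    rw [integral_sub hi1 hi2, setIntegral_const, integral_div,
      integral_const_mul, measureReal_def, hvol, smul_eq_mul]
    have : ∫ p in U n, ‖r p‖^2 ≤ R :=
      setIntegral_le_integral hint (Filter.Eventually.of_forall fun p => by positivity)
    have h4 : (1/4:ℝ)^n * (∫ p in U n, ‖r p‖^2)/ε ≤ (1/4)^n * R/ε := by gcongr
    linarith
  refine lt_of_lt_of_le ?_ (hleft.trans hcalc)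
  rw [hvol]
  have h5 : (1/4:ℝ)^n = (1/2)^n * (1/2)^n := by rw [← mul_pow]; norm_num
  have h6 : (1/4:ℝ)^n * R/ε ≤ (1/2)^n * ε := by
    rw [div_le_iff₀ hε, h5]
    have h7 : (1/2:ℝ)^n * (R+1) < ε^2 := by
      rwa [lt_div_iff₀ (by positivity)] at hn
    have h8 : (1/2:ℝ)^n * R ≤ ε^2 := by nlinarith
    calc (1/2:ℝ)^n * (1/2)^n * R = (1/2)^n * ((1/2)^n * R) := by ring
      _ ≤ (1/2)^n * ε^2 := by gcongr
      _ = (1/2)^n * ε * ε := by ring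
  have h9 : η = 1 - 4*ε := by rw [hε']; ring
  rw [h9]
  nlinarith

end Pool.Agent.V11113.TH
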